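import Pool.Agent.R492.DV.Kueker
import Pool.Agent.R492.DW.W4

/-!
# Orderings of fields which are `NIP_n` or NTP2 are definable

Let `K` be a field (a pure field, in the language of rings) which is `NIP_n` for some `n`, or NIP, or
NTP2. An ordering of `K` is adapted to the elements `a₁, ..., a_r` if they are nonnegative and every
`x ≥ 0` satisfies `x ≤ a_i y² ≤ 2x` for some `i` and `y`. Such elements exist if and only if the value
group `Γ` of the natural valuation of the ordering has finite index `[Γ : 2Γ]`, for example for all
archimedean orderings. Every adapted ordering is definable with parameters in the language of rings,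
and there is an `N` such that no field elementarily equivalent to `K` has `N` orderings adapted to
the same elements. So real `NIP_n` fields with such an ordering are `NIP_n` as ordered fields.

By the result `LocalPlaces` of `MP_3554b5_lc` there is an `N` such that among any `N` orderings of a
field elementarily equivalent to `K` there are two with the same real place. Two orderings with the
same real place which are adapted to the same elements are equal. So there are fewer than `N`
expansions of any `(K', a')` to an ordered field elementarily equivalent to the given one, and by
Kueker's theorem with constants the ordering is definable with parameters.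
-/

set_option autoImplicit false

namespace Pool.Agent.Results.MP_829a8f_lc.DefinableOrderings

open Pool.Agent.W882.Nip3 Pool.Agent.R614.NF Pool.Agent.R492.DV Pool.Agent.R492.DW

/-- Let `K` be a field which is NIP, or `NIP_n` for some `n`, or NTP2.

(1) Every ordering of `K` which is adapted to finitely many elements is definable with parameters in
the language of rings.

(2) For every embedding `f` of `K` in the real numbers the ordering induced by `f` is definable with
parameters.

(3) There is an `N` such that for every field `K'` elementarily equivalent to `K` and all
`a₁, ..., a_r` in `K'` there are fewer than `N` orderings of `K'` adapted to them. -/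
theorem result (K : Type) [Field K] [FirstOrder.Ring.CompatibleRing K]
    (hK : NIPField K ∨ (∃ n, NIPnField n K) ∨ NTP2Field K) :
    (∀ (o : FieldOrder K) (r : ℕ) (a : Fin r → K), Adapted a o →
      ∃ (p : ℕ) (ψ : FirstOrder.Language.ring.Formula (Fin 1 ⊕ Fin p)) (c : Fin p → K),
        ∀ x : K, o.le 0 x ↔ ψ.Realize (Sum.elim (fun _ => x) c)) ∧
    (∀ f : K →+* ℝ,
      ∃ (p : ℕ) (ψ : FirstOrder.Language.ring.Formula (Fin 1 ⊕ Fin p)) (c : Fin p → K),
        ∀ x : K, 0 ≤ f x ↔ ψ.Realize (Sum.elim (fun _ => x) c)) ∧
    ∃ N : ℕ, ∀ (K' : Type) [Field K'] [FirstOrder.Ring.CompatibleRing K'],
      FirstOrder.Language.ring.ElementarilyEquivalent K K' → ∀ (r : ℕ) (a : Fin r → K'),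
      {o : FieldOrder K' | Adapted a o}.encard < N :=
  ⟨(ord_main4 kueker K hK).1, (ord_main kueker K hK).2.1, (ord_main4 kueker K hK).2⟩

end Pool.Agent.Results.MP_829a8f_lc.DefinableOrderings
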